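import Pool.Agent.Y173.RV.Sets

/-! Compact sets which contain the boundary of a body and one more point. -/

set_option autoImplicit false

namespace Pool.Agent.Y173.RV

open Set Metric Pool.Agent.Helper569.Reul

variable {V : Type} [NormedAddCommGroup V] [InnerProductSpace ℝ V]

theorem ray_meets_frontier {K : Set V} (hK : IsCompact K) {c d : V} (hc : c ∈ interior K)
    (hd : d ≠ 0) : ∃ ρ : ℝ, 0 < ρ ∧ c + ρ • d ∈ frontier K := by
  obtain ⟨R, hR⟩ := hK.isBounded.subset_closedBall c
  have hd0 : 0 < ‖d‖ := norm_pos_iff.2 hd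
  have he : c + ((|R| + 1) / ‖d‖) • d ∉ K := by
    intro h
    have h1 := hR h
    rw [mem_closedBall, dist_eq_norm, add_sub_cancel_left, norm_smul,
      Real.norm_of_nonneg (by positivity), div_mul_cancel₀ _ hd0.ne'] at h1
    have h2 := le_abs_self R
    linarith
  obtain ⟨w, ⟨r, t, hr, ht, hrt, hw⟩, hwf⟩ := segment_meets_frontier hK.isClosed hc he
  have ht0 : 0 < t := by
    rcases ht.eq_or_lt with h | h
    · exfalso
      rw [← h, zero_smul, add_zero, show r = 1 by linarith, one_smul] at hw
      rw [← hw, hK.isClosed.frontier_eq] at hwf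
      exact hwf.2 hc
    · exact h
  refine ⟨t * ((|R| + 1) / ‖d‖), by positivity, ?_⟩
  have h1 : c + (t * ((|R| + 1) / ‖d‖)) • d = w := by
    rw [← hw, show r = 1 - t by linarith]
    module
  rw [h1]
  exact hwf

theorem open_of_interior [Nontrivial V] {K : Set V} (hK : IsCompact K) {c : V}
    (hc : c ∈ interior K) : ∃ p ∈ frontier K, ∃ q ∈ frontier K, p ≠ q ∧ c ∈ openSegment ℝ p q := by
  obtain ⟨d, hd⟩ := exists_ne (0 : V)
  obtain ⟨ρ, hρ, h1⟩ := ray_meets_frontier hK hc hd
  obtain ⟨σ, hσ, h2⟩ := ray_meets_frontier hK hc (neg_ne_zero.2 hd)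
  have h3 : (ρ + σ) ≠ 0 := by positivity
  refine ⟨_, h1, _, h2, ?_, ?_⟩
  · intro h
    have h4 : (ρ + σ) • d = 0 := by
      have h5 : (c + ρ • d) - (c + σ • -d) = 0 := sub_eq_zero.2 h
      rw [← h5]
      module
    rcases smul_eq_zero.1 h4 with h5 | h5
    · exact h3 h5
    · exact hd h5
  · refine ⟨σ / (ρ + σ), ρ / (ρ + σ), by positivity, by positivity, ?_, ?_⟩
    · rw [← add_div, add_comm σ ρ, div_self h3]
    · apply smul_right_injective V h3
      change (ρ + σ) • ((σ / (ρ + σ)) • (c + ρ • d) + (ρ / (ρ + σ)) • (c + σ • -d)) = (ρ + σ) • c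
      rw [smul_add, smul_smul, smul_smul, mul_div_cancel₀ _ h3, mul_div_cancel₀ _ h3]
      module

/-- Let `K` be a compact set with interior points in a space of dimension at least two. Every
compact set which contains the boundary of `K` and one more point has `a < b`. -/
theorem super_lt [FiniteDimensional ℝ V] (hdim : 2 ≤ Module.finrank ℝ V) {K E : Set V}
    (hK : IsCompact K) (hKi : (interior K).Nonempty) (hE : IsCompact E) (hsub : frontier K ⊆ E)
    (hne : E ≠ frontier K) : rendezvous E < maxAvg E := by
  have : Nontrivial V := Module.nontrivial_of_finrank_pos (R := ℝ) (by omega)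
  have hint : interior K ⊆ convexHull ℝ E := by
    intro c hc
    obtain ⟨p, hp, q, hq, -, h⟩ := open_of_interior hK hc
    exact (convex_convexHull ℝ E).openSegment_subset (subset_convexHull ℝ E (hsub hp))
      (subset_convexHull ℝ E (hsub hq)) h
  have hspan : affineSpan ℝ E = ⊤ := by
    have h1 : affineSpan ℝ (interior K) = ⊤ := isOpen_interior.affineSpan_eq_top hKi
    rw [eq_top_iff, ← h1]
    exact affineSpan_le.2 (hint.trans (convexHull_subset_affineSpan E))
  by_contra hcon
  rw [not_lt] at hcon
  have hcol : Collinear ℝ E := by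
    obtain ⟨z, hz, hz2⟩ := exists_of_ssubset (hsub.ssubset_of_ne hne.symm)
    by_cases hzK : z ∈ K
    · have hzi : z ∈ interior K := by
        by_contra h
        exact hz2 (by rw [hK.isClosed.frontier_eq]; exact ⟨hzK, h⟩)
      obtain ⟨p, hp, q, hq, hpq, h⟩ := open_of_interior hK hzi
      exact collinear_of_openSegment hE hpq (subset_convexHull ℝ E (hsub hp))
        (subset_convexHull ℝ E (hsub hq)) hz h hcon
    · obtain ⟨c, hc⟩ := hKi
      obtain ⟨w, hw, hwf⟩ := segment_meets_frontier hK.isClosed hc hzK
      have hwK : w ∈ K := hK.isClosed.frontier_subset hwf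
      have hwi : w ∉ interior K := by
        rw [hK.isClosed.frontier_eq] at hwf
        exact hwf.2
      have hcz : c ≠ z := by
        intro h
        exact hzK (h ▸ interior_subset hc)
      refine collinear_of_openSegment hE hcz (hint hc) (subset_convexHull ℝ E hz) (hsub hwf) ?_
        hcon
      refine mem_openSegment_of_ne_left_right ?_ ?_ hw
      · intro h
        exact hwi (h ▸ hc)
      · intro h
        exact hzK (h ▸ hwK)
  rw [collinear_iff_finrank_le_one, ← direction_affineSpan, hspan, AffineSubspace.direction_top,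
    finrank_top] at hcol
  omega

end Pool.Agent.Y173.RV
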