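import Pool.Agent.Helper569.ReulProb

/-! Sets with equal rendezvous value and maximal average distance: measures with constant potential,
and sets which contain a segment. -/

set_option autoImplicit false

namespace Pool.Agent.Y173.RV

open Set Metric MeasureTheory Filter Topology BoundedContinuousFunction Pool.Agent.Helper569.Reul
open scoped ENNReal RealInnerProductSpace

theorem avg_measure {Ω : Type} [MeasurableSpace Ω] [TopologicalSpace Ω] [BorelSpace Ω]
    [MeasurableSingletonClass Ω]
    {ι : Type} [Fintype ι] [Nonempty ι] (s : ι → Ω) :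
    ∃ P : ProbabilityMeasure Ω, ∀ f : Ω →ᵇ ℝ,
      ∫ ω, f ω ∂(P : Measure Ω) = (1 / (Fintype.card ι : ℝ)) * ∑ i, f (s i) := by
  have hc : (Fintype.card ι : ℝ≥0∞) ≠ 0 := by
    simp
  have hc' : (Fintype.card ι : ℝ≥0∞) ≠ ∞ := by simp
  refine ⟨⟨(Fintype.card ι : ℝ≥0∞)⁻¹ • ∑ i, Measure.dirac (s i), ⟨?_⟩⟩, ?_⟩
  · simp [ENNReal.inv_mul_cancel hc hc']
  · intro f
    simp only [ProbabilityMeasure.coe_mk]
    rw [integral_smul_measure, integral_finsetSum_measure]
    · simp
    · intro i _
      exact f.integrable _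

/-- the distance function as a bounded continuous function on the compact set -/
noncomputable def dfun {X : Type} [MetricSpace X] (E : Set X) [CompactSpace E] (y : X) : E →ᵇ ℝ :=
  BoundedContinuousFunction.mkOfCompact ⟨fun x => dist (x : X) y, by fun_prop⟩

theorem dfun_apply {X : Type} [MetricSpace X] (E : Set X) [CompactSpace E] (y : X) (x : E) :
    dfun E y x = dist (x : X) y := rfl

/-- if `b(E) ≤ a(E)` there is a probability measure with constant potential -/
theorem exists_const {X : Type} [MetricSpace X] [MeasurableSpace X] [BorelSpace X] {E : Set X}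
    [CompactSpace E] (hne : E.Nonempty) (hab : maxAvg E ≤ rendezvous E) :
    ∃ ν : ProbabilityMeasure E, ∀ y ∈ E, ∫ x, dfun E y x ∂(ν : Measure E) = maxAvg E := by
  have hE : IsCompact E := isCompact_iff_compactSpace.2 inferInstance
  have h1 : ∀ k : ℕ, ∃ P : ProbabilityMeasure E, ∀ y ∈ E,
      |∫ x, dfun E y x ∂(P : Measure E) - maxAvg E| ≤ 1 / ((k : ℝ) + 1) := by
    intro k
    obtain ⟨n, x, hn, hx, hU⟩ := exists_config hE hne hab (ε := 1 / ((k : ℝ) + 1)) (by positivity)
    have : Nonempty (Fin n) := ⟨⟨0, hn⟩⟩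
    obtain ⟨P, hP⟩ := avg_measure (fun i => (⟨x i, hx i⟩ : E))
    refine ⟨P, fun y hy => ?_⟩
    rw [hP, Fintype.card_fin]
    exact hU y hy
  choose P hP using h1
  let U : Ultrafilter (ProbabilityMeasure E) := (hyperfilter ℕ).map P
  obtain ⟨ν, -, hν⟩ := isCompact_univ.ultrafilter_le_nhds U (by simp)
  have hlim : Tendsto P (hyperfilter ℕ) (𝓝 ν) := by
    rw [Tendsto]
    exact hν
  have hν2 := ProbabilityMeasure.tendsto_iff_forall_integral_tendsto.1 hlim
  refine ⟨ν, fun y hy => ?_⟩
  have h3 := hν2 (dfun E y)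
  have h4 : Tendsto (fun k => ∫ x, dfun E y x ∂(P k : Measure E)) atTop (𝓝 (maxAvg E)) := by
    rw [tendsto_iff_norm_sub_tendsto_zero]
    have h5 : Tendsto (fun k : ℕ => 1 / ((k : ℝ) + 1)) atTop (𝓝 0) :=
      tendsto_one_div_add_atTop_nhds_zero_nat (𝕜 := ℝ)
    apply squeeze_zero (fun _ => norm_nonneg _) _ h5
    intro k
    rw [Real.norm_eq_abs]
    exact hP k y hy
  have h5 : Tendsto (fun k => ∫ x, dfun E y x ∂(P k : Measure E)) (hyperfilter ℕ)
      (𝓝 (maxAvg E)) := h4.mono_left Nat.hyperfilter_le_atTop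
  exact tendsto_nhds_unique h3 h5

section

variable {V : Type} [NormedAddCommGroup V] [InnerProductSpace ℝ V]

theorem on_line {p q x : V} (hpq : p ≠ q)
    (h : dist x p + dist x q - 2 * dist x ((1 / 2 : ℝ) • (p + q)) = 0) :
    ∃ s : ℝ, x = p + s • (q - p) := by
  have h1 : ‖(x - p) + (x - q)‖ = ‖x - p‖ + ‖x - q‖ := by
    have h2 : (x - p) + (x - q) = (2 : ℝ) • (x - (1 / 2 : ℝ) • (p + q)) := by
      rw [smul_sub, smul_smul]
      norm_num
      rw [two_smul]
      abel
    rw [h2, norm_smul, Real.norm_ofNat]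
    rw [dist_eq_norm, dist_eq_norm, dist_eq_norm] at h
    linarith
  have h2 : SameRay ℝ (x - p) (x - q) := sameRay_iff_norm_add.2 h1
  rcases h2 with h2 | h2 | ⟨r1, r2, hr1, hr2, h3⟩
  · exact ⟨0, by rw [zero_smul, add_zero]; exact sub_eq_zero.1 h2⟩
  · refine ⟨1, ?_⟩
    rw [one_smul, add_sub_cancel]
    exact sub_eq_zero.1 h2
  · have hr : r1 - r2 ≠ 0 := by
      intro h0
      have h4 : r1 = r2 := sub_eq_zero.1 h0
      rw [h4] at h3
      have h5 := smul_right_injective V hr2.ne' h3
      exact hpq (sub_right_injective h5)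
    refine ⟨-(r2 / (r1 - r2)), ?_⟩
    have h4 : (r1 - r2) • x = (r1 - r2) • (p + (-(r2 / (r1 - r2))) • (q - p)) := by
      rw [smul_add, smul_smul]
      have h5 : (r1 - r2) * -(r2 / (r1 - r2)) = -r2 := by field_simp
      rw [h5]
      rw [smul_sub, smul_sub] at h3
      rw [sub_smul, sub_smul, smul_sub, neg_smul, neg_smul]
      have h6 : r1 • x = r1 • p + (r2 • x - r2 • q) := by rw [← h3]; abel
      rw [h6]
      abel
    exact smul_right_injective V hr h4

variable [MeasurableSpace V] [BorelSpace V] {E : Set V}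

/-- **Main theorem**: let `E` be compact with `b(E) ≤ a(E)`. If a point `c` of `E` lies in an open
segment with end points `p ≠ q` in the convex hull of `E`, then `E` is contained in the line
through `p` and `q`. -/
theorem line_of_openSegment [CompactSpace E] {p q c : V} (hpq : p ≠ q)
    (hp : p ∈ convexHull ℝ E) (hq : q ∈ convexHull ℝ E) (hcE : c ∈ E)
    (hc : c ∈ openSegment ℝ p q) (hab : maxAvg E ≤ rendezvous E) :
    ∀ y ∈ E, ∃ s : ℝ, y = p + s • (q - p) := by
  obtain ⟨ν, hν⟩ := exists_const ⟨c, hcE⟩ hab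
  set b := maxAvg E with hb
  have hint : ∀ y : V, Integrable (fun x : E => dist (x : V) y) (ν : Measure E) := fun y =>
    (dfun E y).integrable _
  obtain ⟨U, hU⟩ : ∃ U : V → ℝ, ∀ y, U y = ∫ x : E, dist (x : V) y ∂(ν : Measure E) :=
    ⟨_, fun _ => rfl⟩
  have hν' : ∀ y ∈ E, U y = b := fun y hy => by rw [hU]; exact hν y hy
  have hconv : ∀ (u v z : V) (t : ℝ), 0 ≤ t → t ≤ 1 → z = (1 - t) • u + t • v →
      U z ≤ (1 - t) * U u + t * U v := by
    intro u v z t ht0 ht1 hz
    rw [hU, hU, hU, ← integral_const_mul, ← integral_const_mul,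
      ← integral_add ((hint u).const_mul _) ((hint v).const_mul _)]
    refine integral_mono (hint z) (((hint u).const_mul _).add ((hint v).const_mul _))
      fun x => ?_
    change dist (x : V) z ≤ (1 - t) * dist (x : V) u + t * dist (x : V) v
    rw [dist_eq_norm, dist_eq_norm, dist_eq_norm]
    have h1 : (x : V) - z = (1 - t) • ((x : V) - u) + t • ((x : V) - v) := by
      rw [hz]
      module
    rw [h1]
    refine (norm_add_le _ _).trans ?_
    rw [norm_smul, norm_smul, Real.norm_of_nonneg (by linarith), Real.norm_of_nonneg ht0]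
  -- the potential is at most `b` on the convex hull
  have hhull : ∀ z ∈ convexHull ℝ E, U z ≤ b := by
    have h1 : Convex ℝ {z : V | U z ≤ b} := by
      intro u hu v hv r t hr ht hrt
      have h2 := hconv u v (r • u + t • v) t ht (by linarith) (by
        rw [show (1 : ℝ) - t = r by linarith])
      have h3 : U u ≤ b := hu
      have h4 : U v ≤ b := hv
      change U (r • u + t • v) ≤ b
      rw [show (1 : ℝ) - t = r by linarith] at h2
      calc U (r • u + t • v) ≤ r * U u + t * U v := h2
        _ ≤ r * b + t * b :=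
          add_le_add (mul_le_mul_of_nonneg_left h3 hr) (mul_le_mul_of_nonneg_left h4 ht)
        _ = b := by rw [← add_mul, hrt, one_mul]
    exact fun z hz => convexHull_min (fun w hw => (hν' w hw).le) h1 hz
  have hUp := hhull p hp
  have hUq := hhull q hq
  have hUc := hν' c hcE
  obtain ⟨r, t, hr, ht, hrt, hcc⟩ := hc
  have hc' : c = p + t • (q - p) := by
    rw [← hcc, show r = 1 - t by linarith]
    module
  have ht1 : t < 1 := by linarith
  -- the potential is at least `b` on the line
  have hge : ∀ s : ℝ, b ≤ U (p + s • (q - p)) := by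
    intro s
    rcases le_or_gt t s with hts | hts
    · have hs : 0 < s := by linarith
      have h1 := hconv p (p + s • (q - p)) c (t / s) (by positivity)
        (by rw [div_le_one hs]; exact hts) (by
        have h2 : (1 - t / s) • p + (t / s) • (p + s • (q - p)) = p + (t / s * s) • (q - p) := by
          module
        rw [h2, div_mul_cancel₀ _ hs.ne', hc'])
      rw [hUc] at h1
      have h2 : 0 < t / s := by positivity
      have h3 : t / s ≤ 1 := by rw [div_le_one hs]; exact hts
      have h4 : (1 - t / s) * U p ≤ (1 - t / s) * b :=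
        mul_le_mul_of_nonneg_left hUp (by linarith)
      have h5 : t / s * b ≤ t / s * U (p + s • (q - p)) := by linarith
      exact le_of_mul_le_mul_left h5 h2
    · have hs : 0 < 1 - s := by linarith
      have hτ0 : 0 ≤ (t - s) / (1 - s) := div_nonneg (by linarith) hs.le
      have hτ1 : (t - s) / (1 - s) < 1 := by rw [div_lt_one hs]; linarith
      have h1 := hconv (p + s • (q - p)) q c ((t - s) / (1 - s)) hτ0 hτ1.le (by
        have h2 : (1 - (t - s) / (1 - s)) • (p + s • (q - p)) + ((t - s) / (1 - s)) • q =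
            p + (s + (t - s) / (1 - s) * (1 - s)) • (q - p) := by
          module
        rw [h2, div_mul_cancel₀ _ hs.ne', add_sub_cancel, hc'])
      rw [hUc] at h1
      have h4 : (t - s) / (1 - s) * U q ≤ (t - s) / (1 - s) * b :=
        mul_le_mul_of_nonneg_left hUq hτ0
      have h5 : (1 - (t - s) / (1 - s)) * b ≤
          (1 - (t - s) / (1 - s)) * U (p + s • (q - p)) := by linarith
      exact le_of_mul_le_mul_left h5 (by linarith)
  have hmid : b ≤ U ((1 / 2 : ℝ) • (p + q)) := by
    have h1 := hge (1 / 2)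
    rwa [show p + (1 / 2 : ℝ) • (q - p) = (1 / 2 : ℝ) • (p + q) by module] at h1
  -- the measure lives on the line
  have hae : ∀ᵐ x : E ∂(ν : Measure E), ∃ s : ℝ, (x : V) = p + s • (q - p) := by
    have h0 : ∀ x : E, 0 ≤ dist (x : V) p + dist (x : V) q -
        2 * dist (x : V) ((1 / 2 : ℝ) • (p + q)) := by
      intro x
      have h1 : (2 : ℝ) * dist (x : V) ((1 / 2 : ℝ) • (p + q)) =
          ‖((x : V) - p) + ((x : V) - q)‖ := by
        have h2 : ((x : V) - p) + ((x : V) - q) = (2 : ℝ) • ((x : V) - (1 / 2 : ℝ) • (p + q)) := by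
          rw [smul_sub, smul_smul]
          norm_num
          rw [two_smul]
          abel
        rw [h2, norm_smul, Real.norm_ofNat, dist_eq_norm]
      rw [h1, dist_eq_norm, dist_eq_norm]
      have := norm_add_le ((x : V) - p) ((x : V) - q)
      linarith
    have h1 : ∫ x : E, (dist (x : V) p + dist (x : V) q -
        2 * dist (x : V) ((1 / 2 : ℝ) • (p + q))) ∂(ν : Measure E) = 0 := by
      have hi1 : Integrable (fun x : E => dist (x : V) p + dist (x : V) q) (ν : Measure E) :=
        (hint p).add (hint q)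
      have hi2 : Integrable (fun x : E => 2 * dist (x : V) ((1 / 2 : ℝ) • (p + q)))
        (ν : Measure E) := (hint _).const_mul 2
      refine le_antisymm ?_ (integral_nonneg h0)
      rw [integral_sub hi1 hi2,
        integral_add (hint p) (hint q), integral_const_mul, ← hU, ← hU, ← hU]
      linarith
    have h2 := (integral_eq_zero_iff_of_nonneg h0
      (((hint p).add (hint q)).sub ((hint _).const_mul 2))).1 h1
    filter_upwards [h2] with x hx
    exact on_line hpq hx
  intro y hy
  by_contra hcon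
  -- the projection
  have hd : q - p ≠ 0 := sub_ne_zero.2 hpq.symm
  have hdd : ⟪q - p, q - p⟫ ≠ 0 := fun h => hd (inner_self_eq_zero.1 h)
  obtain ⟨s, hs⟩ : ∃ s : ℝ, s = ⟪y - p, q - p⟫ / ⟪q - p, q - p⟫ := ⟨_, rfl⟩
  obtain ⟨y', hy'⟩ : ∃ y' : V, y' = p + s • (q - p) := ⟨_, rfl⟩
  have hne : y - y' ≠ 0 := by
    intro h0
    exact hcon ⟨s, by rw [← hy']; exact sub_eq_zero.1 h0⟩
  have horth : ⟪y - y', q - p⟫ = 0 := by
    have h1 : y - y' = (y - p) - s • (q - p) := by rw [hy']; abel
    rw [h1, inner_sub_left, inner_smul_left, hs]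
    simp only [conj_trivial]
    rw [div_mul_cancel₀ _ hdd, sub_self]
  have hlt : ∀ᵐ x : E ∂(ν : Measure E), dist (x : V) y' < dist (x : V) y := by
    filter_upwards [hae] with x hx
    obtain ⟨t, ht⟩ := hx
    have h1 : (x : V) - y = ((x : V) - y') - (y - y') := by abel
    have h2 : ⟪(x : V) - y', y - y'⟫ = 0 := by
      have h3 : (x : V) - y' = (t - s) • (q - p) := by
        rw [ht, hy', sub_smul]
        abel
      rw [h3, inner_smul_left, real_inner_comm, horth, mul_zero]
    have h3 : ‖(x : V) - y‖ ^ 2 = ‖(x : V) - y'‖ ^ 2 + ‖y - y'‖ ^ 2 := by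
      rw [h1, norm_sub_sq_real, h2]
      ring
    have h4 : 0 < ‖y - y'‖ := norm_pos_iff.2 hne
    rw [dist_eq_norm, dist_eq_norm]
    refine lt_of_pow_lt_pow_left₀ 2 (norm_nonneg _) ?_
    rw [h3]
    have := pow_pos h4 2
    linarith
  have hU2 : b ≤ ∫ x : E, dist (x : V) y' ∂(ν : Measure E) := by
    rw [← hU, hy']
    exact hge s
  have h1 : ∫ x : E, (dist (x : V) y - dist (x : V) y') ∂(ν : Measure E) ≤ 0 := by
    rw [integral_sub (hint y) (hint y'), ← hU y, hν' y hy]
    linarith
  have h2 : 0 ≤ᵐ[(ν : Measure E)] fun x : E => dist (x : V) y - dist (x : V) y' := by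
    filter_upwards [hlt] with x hx
    change 0 ≤ dist (x : V) y - dist (x : V) y'
    linarith
  have h3 : ∫ x : E, (dist (x : V) y - dist (x : V) y') ∂(ν : Measure E) = 0 :=
    le_antisymm h1 (integral_nonneg_of_ae h2)
  have h4 := (integral_eq_zero_iff_of_nonneg_ae h2 ((hint y).sub (hint y'))).1 h3
  have h5 : ∀ᵐ x : E ∂(ν : Measure E), False := by
    filter_upwards [h4, hlt] with x hx hx'
    change dist (x : V) y - dist (x : V) y' = 0 at hx
    linarith
  have h6 : (ν : Measure E) = 0 := ae_eq_bot.1 (eventually_false_iff_eq_bot.1 h5)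
  exact IsProbabilityMeasure.ne_zero (ν : Measure E) h6

end

end Pool.Agent.Y173.RV
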