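import Pool.Agent.Y173.RV.Meas

/-! Compact sets which contain a segment: `a(E) = b(E)` exactly for subsets of a line. -/

set_option autoImplicit false

namespace Pool.Agent.Y173.RV

open Set Metric MeasureTheory Filter Topology Pool.Agent.Helper569.Reul
open scoped RealInnerProductSpace

theorem rendezvous_le_maxAvg {X : Type} [PseudoMetricSpace X] {E : Set X}
    (hE : Bornology.IsBounded E) : rendezvous E ≤ maxAvg E := by
  apply Real.sSup_le _ (maxAvg_nonneg E)
  rintro r ⟨n, x, hn, hx, hr⟩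
  have hn0 : (0 : ℝ) < n := by exact_mod_cast hn
  have : Nonempty (Fin n) := ⟨⟨0, hn⟩⟩
  have h1 := sum_le_maxAvg hE x hx
  rw [Fintype.card_fin] at h1
  have h2 : ∀ j : Fin n, n * r ≤ ∑ i, dist (x i) (x j) := by
    intro j
    have h3 := hr.2 ⟨x j, hx j, rfl⟩
    have h4 := mul_le_mul_of_nonneg_left h3 hn0.le
    have h5 : (n : ℝ) * (1 / (n : ℝ) * ∑ i, dist (x i) (x j)) = ∑ i, dist (x i) (x j) := by
      field_simp
    linarith
  have h3 : ∑ _j : Fin n, (n * r) ≤ ∑ j, ∑ i, dist (x i) (x j) :=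
    Finset.sum_le_sum fun j _ => h2 j
  rw [Finset.sum_comm, Finset.sum_const, Finset.card_univ, Fintype.card_fin, nsmul_eq_mul] at h3
  have h4 : (n : ℝ) ^ 2 * r ≤ (n : ℝ) ^ 2 * maxAvg E := by nlinarith
  exact le_of_mul_le_mul_left h4 (by positivity)

variable {V : Type} [NormedAddCommGroup V] [InnerProductSpace ℝ V]

theorem collinear_of_openSegment {E : Set V} (hE : IsCompact E) {p q c : V} (hpq : p ≠ q)
    (hp : p ∈ convexHull ℝ E) (hq : q ∈ convexHull ℝ E) (hcE : c ∈ E)
    (hc : c ∈ openSegment ℝ p q) (hab : maxAvg E ≤ rendezvous E) : Collinear ℝ E := by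
  borelize V
  have : CompactSpace E := isCompact_iff_compactSpace.1 hE
  have h := line_of_openSegment hpq hp hq hcE hc hab
  rw [collinear_iff_exists_forall_eq_smul_vadd]
  refine ⟨p, q - p, fun y hy => ?_⟩
  obtain ⟨s, hs⟩ := h y hy
  exact ⟨s, by rw [hs, vadd_eq_add, add_comm]⟩

/-- **Main theorem.** If `b(E) ≤ a(E)` then `E` lies in a line, or every point of `E` is an extreme
point of the convex hull of `E`. -/
theorem collinear_or_extreme {E : Set V} (hE : IsCompact E) (hab : maxAvg E ≤ rendezvous E) :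
    Collinear ℝ E ∨ E ⊆ (convexHull ℝ E).extremePoints ℝ := by
  by_contra hcon
  rw [not_or, not_subset] at hcon
  obtain ⟨hcol, c, hc, hce⟩ := hcon
  apply hcol
  rw [mem_extremePoints] at hce
  push Not at hce
  obtain ⟨p, hp, q, hq, hopen, h⟩ := hce (subset_convexHull ℝ E hc)
  refine collinear_of_openSegment hE ?_ hp hq hc hopen hab
  rintro rfl
  rw [openSegment_same, mem_singleton_iff] at hopen
  exact h hopen.symm hopen.symm

/-- on a compact subset of a line both values are half of the diameter -/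
theorem collinear_values {E : Set V} (hE : IsCompact E) (hne : E.Nonempty)
    (hcol : Collinear ℝ E) : ∃ u ∈ E, ∃ w ∈ E, (∀ x ∈ E, ∀ y ∈ E, dist x y ≤ dist u w) ∧
      rendezvous E = dist u w / 2 ∧ maxAvg E = dist u w / 2 := by
  obtain ⟨⟨u, w⟩, ⟨hu, hw⟩, hmax⟩ := (hE.prod hE).exists_isMaxOn (hne.prod hne)
    (f := fun z : V × V => dist z.1 z.2) (by fun_prop)
  have hD : ∀ x ∈ E, ∀ y ∈ E, dist x y ≤ dist u w := fun x hx y hy =>
    hmax (show (x, y) ∈ E ×ˢ E from ⟨hx, hy⟩)
  have hD0 : 0 ≤ dist u w := dist_nonneg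
  have hbtw : ∀ y ∈ E, Wbtw ℝ u y w := by
    intro y hy
    have h1 : Collinear ℝ {u, y, w} := hcol.subset (by
      rintro z (rfl | rfl | rfl)
      exacts [hu, hy, hw])
    rcases h1.wbtw_or_wbtw_or_wbtw with h2 | h2 | h2
    · exact h2
    · have h3 := h2.dist_add_dist
      have h4 := hD y hy u hu
      have h5 : dist y w = 0 := by
        have h6 : dist w u = dist u w := dist_comm _ _
        have h7 : 0 ≤ dist y w := dist_nonneg
        linarith
      rw [dist_eq_zero.1 h5]
      exact wbtw_self_right ℝ u w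
    · have h3 := h2.dist_add_dist
      have h4 := hD w hw y hy
      have h5 : dist u y = 0 := by
        have h6 : dist w u = dist u w := dist_comm _ _
        have h7 : 0 ≤ dist u y := dist_nonneg
        linarith
      rw [← dist_eq_zero.1 h5]
      exact wbtw_self_left ℝ u w
  have hpar : ∀ y ∈ E, ∃ t : ℝ, 0 ≤ t ∧ t ≤ 1 ∧ AffineMap.lineMap u w t = y := by
    intro y hy
    obtain ⟨t, ht, h⟩ := hbtw y hy
    exact ⟨t, ht.1, ht.2, h⟩
  have hup : maxAvg E ≤ dist u w / 2 := by
    apply Real.sSup_le _ (by positivity)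
    rintro r ⟨n, x, hn, hx, rfl⟩
    have hn0 : (0 : ℝ) < n := by exact_mod_cast hn
    choose t ht0 ht1 ht using fun i => hpar (x i) (hx i)
    have h1 : ∀ i j, dist (x i) (x j) ≤ (t i + t j - 2 * (t i * t j)) * dist u w := by
      intro i j
      rw [← ht i, ← ht j, dist_lineMap_lineMap, Real.dist_eq]
      apply mul_le_mul_of_nonneg_right _ hD0
      rw [abs_le]
      have h2 := ht0 i
      have h3 := ht0 j
      have h4 := ht1 i
      have h5 := ht1 j
      constructor <;> nlinarith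
    have h2 : ∑ i, ∑ j, dist (x i) (x j) ≤
        ∑ i : Fin n, ∑ j : Fin n, (t i + t j - 2 * (t i * t j)) * dist u w :=
      Finset.sum_le_sum fun i _ => Finset.sum_le_sum fun j _ => h1 i j
    have h3 : ∑ i : Fin n, ∑ j : Fin n, (t i + t j - 2 * (t i * t j)) * dist u w =
        (2 * n * (∑ i, t i) - 2 * (∑ i, t i) ^ 2) * dist u w := by
      simp only [← Finset.sum_mul]
      congr 1
      simp only [Finset.sum_sub_distrib, Finset.sum_add_distrib, Finset.sum_const,
        Finset.card_univ, Fintype.card_fin, nsmul_eq_mul, ← Finset.mul_sum]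
      rw [← Finset.sum_mul]
      ring
    rw [h3] at h2
    have h4 : (2 * n * (∑ i, t i) - 2 * (∑ i, t i) ^ 2) * dist u w ≤
        (n : ℝ) ^ 2 * (dist u w / 2) := by
      have h5 : (2 * n * (∑ i, t i) - 2 * (∑ i, t i) ^ 2) ≤ (n : ℝ) ^ 2 / 2 := by
        nlinarith [sq_nonneg ((n : ℝ) - 2 * ∑ i, t i)]
      calc _ ≤ (n : ℝ) ^ 2 / 2 * dist u w := mul_le_mul_of_nonneg_right h5 hD0
        _ = _ := by ring
    rw [one_div, inv_mul_le_iff₀ (by positivity)]
    exact h2.trans h4
  have hlow : dist u w / 2 ≤ rendezvous E := by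
    apply le_csSup (rendezvous_bdd hE.isBounded)
    refine ⟨2, ![u, w], by norm_num, ?_, ⟨⟨u, hu, ?_⟩, ?_⟩⟩
    · intro i
      fin_cases i
      exacts [hu, hw]
    · simp [dist_comm w u]
      ring
    · rintro s ⟨y, hy, rfl⟩
      have h1 := (hbtw y hy).dist_add_dist
      simp only [Fin.sum_univ_two, Matrix.cons_val_zero, Matrix.cons_val_one, Nat.cast_ofNat]
      rw [dist_comm w y, h1]
      linarith
  have hle := rendezvous_le_maxAvg hE.isBounded
  exact ⟨u, hu, w, hw, hD, by linarith, by linarith⟩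

/-- **Characterisation** for sets with a point which is not extreme. -/
theorem lt_iff {E : Set V} (hE : IsCompact E) (hne : ¬ E ⊆ (convexHull ℝ E).extremePoints ℝ) :
    rendezvous E < maxAvg E ↔ ¬ Collinear ℝ E := by
  have hn : E.Nonempty := by
    rw [nonempty_iff_ne_empty]
    rintro rfl
    exact hne (empty_subset _)
  constructor
  · intro h hcol
    obtain ⟨u, -, w, -, -, h1, h2⟩ := collinear_values hE hn hcol
    rw [h1, h2] at h
    exact lt_irrefl _ h
  · intro h
    by_contra hcon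
    exact (collinear_or_extreme hE (not_lt.1 hcon)).elim h hne

theorem segment_meets_frontier {T : Set V} (hT : IsClosed T) {a e : V} (ha : a ∈ interior T)
    (he : e ∉ T) : ∃ w ∈ segment ℝ a e, w ∈ frontier T := by
  by_contra hcon
  push Not at hcon
  have h1 : segment ℝ a e ⊆ interior T ∪ Tᶜ := by
    intro w hw
    by_contra h
    rw [mem_union, not_or, notMem_compl_iff] at h
    apply hcon w hw
    rw [hT.frontier_eq]
    exact ⟨h.2, h.1⟩
  obtain ⟨w, -, hw1, hw2⟩ := (convex_segment a e).isPreconnected _ _ isOpen_interior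
    hT.isOpen_compl h1 ⟨a, left_mem_segment ℝ a e, ha⟩ ⟨e, right_mem_segment ℝ a e, he⟩
  exact hw2 (interior_subset hw1)

section reul

variable {v : Fin 3 → V}

theorem reul_closed : IsClosed (reuleaux v) := isClosed_iInter fun _ => isClosed_closedBall

theorem reul_mem (hv : ∀ i j, i ≠ j → dist (v i) (v j) = 1) (i : Fin 3) :
    v i ∈ reuleaux v := by
  rw [reuleaux, mem_iInter]
  intro j
  rw [mem_closedBall]
  by_cases h : i = j
  · rw [h, dist_self]; norm_num
  · rw [hv i j h]

theorem reul_frontier (hv : ∀ i j, i ≠ j → dist (v i) (v j) = 1) {i j : Fin 3} (hij : i ≠ j) :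
    v i ∈ frontier (reuleaux v) := by
  rw [reul_closed.frontier_eq]
  refine ⟨reul_mem hv i, fun h => ?_⟩
  have h1 : v i ∈ interior (closedBall (v j) 1) :=
    interior_mono (iInter_subset _ j) h
  rw [interior_closedBall _ one_ne_zero, mem_ball, hv i j hij] at h1
  exact lt_irrefl _ h1

theorem reul_not_collinear (hv : ∀ i j, i ≠ j → dist (v i) (v j) = 1) {E : Set V}
    (hE : ∀ i, v i ∈ E) : ¬ Collinear ℝ E := by
  intro hcol
  have h01 := hv 0 1 (by decide)
  have h12 := hv 1 2 (by decide)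
  have h20 := hv 2 0 (by decide)
  have h1 : Collinear ℝ {v 0, v 1, v 2} := hcol.subset (by
    rintro z (rfl | rfl | rfl)
    exacts [hE 0, hE 1, hE 2])
  rcases h1.wbtw_or_wbtw_or_wbtw with h2 | h2 | h2
  · have h3 := h2.dist_add_dist
    rw [dist_comm (v 0) (v 2), h01, h12, h20] at h3
    norm_num at h3
  · have h3 := h2.dist_add_dist
    rw [dist_comm (v 1) (v 0), h01, h12, h20] at h3
    norm_num at h3
  · have h3 := h2.dist_add_dist
    rw [dist_comm (v 2) (v 1), h01, h12, h20] at h3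
    norm_num at h3

theorem reul_mid (hv : ∀ i j, i ≠ j → dist (v i) (v j) = 1) :
    (1 / 2 : ℝ) • (v 0 + v 1) ∈ interior (reuleaux v) := by
  have h1 : ⋂ i, ball (v i) 1 ⊆ interior (reuleaux v) := by
    apply interior_maximal
    · exact iInter_mono fun i => ball_subset_closedBall
    · exact isOpen_iInter_of_finite fun i => isOpen_ball
  apply h1
  have h01 := hv 0 1 (by decide)
  have h12 := hv 1 2 (by decide)
  have h20 := hv 2 0 (by decide)
  rw [mem_iInter]
  intro i
  rw [mem_ball, dist_eq_norm]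
  fin_cases i
  · change ‖(1 / 2 : ℝ) • (v 0 + v 1) - v 0‖ < 1
    rw [show (1 / 2 : ℝ) • (v 0 + v 1) - v 0 = (1 / 2 : ℝ) • (v 1 - v 0) by module, norm_smul,
      ← dist_eq_norm, dist_comm, h01]
    norm_num
  · change ‖(1 / 2 : ℝ) • (v 0 + v 1) - v 1‖ < 1
    rw [show (1 / 2 : ℝ) • (v 0 + v 1) - v 1 = (1 / 2 : ℝ) • (v 0 - v 1) by module, norm_smul,
      ← dist_eq_norm, h01]
    norm_num
  · change ‖(1 / 2 : ℝ) • (v 0 + v 1) - v 2‖ < 1
    rw [show (1 / 2 : ℝ) • (v 0 + v 1) - v 2 = (1 / 2 : ℝ) • ((v 0 - v 2) + (v 1 - v 2)) by module,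
      norm_smul]
    have h3 := parallelogram_law_with_norm ℝ (v 0 - v 2) (v 1 - v 2)
    have h4 : v 0 - v 2 - (v 1 - v 2) = v 0 - v 1 := by abel
    rw [h4, ← dist_eq_norm (v 0) (v 1), ← dist_eq_norm (v 0) (v 2), ← dist_eq_norm (v 1) (v 2),
      dist_comm (v 0) (v 2), h01, h12, h20] at h3
    have h5 : 0 ≤ ‖v 0 - v 2 + (v 1 - v 2)‖ := norm_nonneg _
    rw [Real.norm_of_nonneg (by norm_num)]
    nlinarith

end reul

end Pool.Agent.Y173.RV
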